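import Pool.Agent.Helper21.FD.G6

/-!
MP_0aa406_nt, project FE (helper50), step (g): the chain domination of FD/G6 with the rank of a breadth first search
in the Cayley digraph of `{t - t0}`: only the rows over `t0` are lost.
-/

set_option autoImplicit false

namespace Pool.Agent.Helper21.FE

open Finset Pool.Agent.Helper21.FC Pool.Agent.Helper21.FD

/-! ### the rank -/

open Pointwise in
/-- breadth first search rank in `ZMod m` for steps in `D` -/
theorem bfs_rank {m : ℕ} [NeZero m] (D : Finset (ZMod m))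
    (hD : AddSubgroup.closure (D : Set (ZMod m)) = ⊤) :
    ∃ rk : ZMod m → ℕ, Function.Injective rk ∧ (∀ g, rk g < m) ∧
      ∀ x, x ≠ 0 → ∃ s ∈ D, rk (x - s) < rk x := by
  classical
  obtain ⟨S, hS⟩ : ∃ S : Finset (ZMod m), S = insert 0 D := ⟨_, rfl⟩
  have h0S : (0 : ZMod m) ∈ S := by rw [hS]; exact mem_insert_self _ _
  -- the reachable set is a subgroup
  have hadd : ∀ x y : ZMod m, (∃ n : ℕ, x ∈ n • S) → (∃ n : ℕ, y ∈ n • S) →
      ∃ n : ℕ, x + y ∈ n • S := by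
    rintro x y ⟨n, hn⟩ ⟨n', hn'⟩
    exact ⟨n + n', by rw [add_nsmul]; exact Finset.add_mem_add hn hn'⟩
  have hz : ∃ n : ℕ, (0 : ZMod m) ∈ n • S := ⟨1, by rw [one_nsmul]; exact h0S⟩
  have hmul : ∀ (x : ZMod m), (∃ n : ℕ, x ∈ n • S) → ∀ j : ℕ, ∃ n : ℕ, j • x ∈ n • S := by
    intro x hx j
    induction j with
    | zero => rw [zero_nsmul]; exact hz
    | succ j ih => rw [succ_nsmul]; exact hadd _ _ ih hx
  have hneg : ∀ x : ZMod m, (∃ n : ℕ, x ∈ n • S) → ∃ n : ℕ, -x ∈ n • S := by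
    intro x hx
    have h1 : -x = (m - 1) • x := by
      have h2 : (m - 1) • x + x = 0 := by
        rw [← succ_nsmul, Nat.sub_add_cancel (Nat.pos_of_ne_zero (NeZero.ne m)),
          nsmul_eq_mul, ZMod.natCast_self, zero_mul]
      exact (eq_neg_of_add_eq_zero_left h2).symm
    rw [h1]
    exact hmul x hx _
  have hall : ∀ x : ZMod m, ∃ n : ℕ, x ∈ n • S := by
    let H : AddSubgroup (ZMod m) :=
      { carrier := {x | ∃ n : ℕ, x ∈ n • S}
        add_mem' := fun {a b} ha hb => hadd a b ha hb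
        zero_mem' := hz
        neg_mem' := fun {a} ha => hneg a ha }
    have h1 : AddSubgroup.closure (D : Set (ZMod m)) ≤ H := by
      rw [AddSubgroup.closure_le]
      intro x hx
      refine ⟨1, ?_⟩
      rw [one_nsmul, hS]
      exact mem_insert_of_mem hx
    rw [hD] at h1
    intro x
    exact h1 (AddSubgroup.mem_top x)
  obtain ⟨d, hd⟩ : ∃ d : ZMod m → ℕ, ∀ x, d x = Nat.find (hall x) := ⟨_, fun _ => rfl⟩
  have hdm : ∀ x, x ∈ d x • S := by intro x; rw [hd]; exact Nat.find_spec (hall x)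
  have hdl : ∀ x n, x ∈ n • S → d x ≤ n := by
    intro x n h; rw [hd]; exact Nat.find_min' (hall x) h
  have hstep : ∀ x, x ≠ 0 → ∃ s ∈ D, d (x - s) < d x := by
    intro x hx
    have h1 := hdm x
    obtain ⟨n, hn⟩ : ∃ n, d x = n + 1 := by
      refine Nat.exists_eq_succ_of_ne_zero fun h => hx ?_
      rw [h, zero_nsmul] at h1
      simpa using h1
    rw [hn, succ_nsmul] at h1
    obtain ⟨y, hy, s, hs, hys⟩ := Finset.mem_add.1 h1
    rw [hS, mem_insert] at hs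
    rcases hs with h | h
    · exfalso
      rw [h, add_zero] at hys
      rw [hys] at hy
      have := hdl x n hy
      omega
    · refine ⟨s, h, ?_⟩
      have h2 : x - s = y := by rw [← hys]; abel
      rw [h2]
      have := hdl y n hy
      omega
  have hval : ∀ g : ZMod m, g.val < m := fun g => ZMod.val_lt g
  obtain ⟨key, hkey⟩ : ∃ key : ZMod m → ℕ, ∀ g, key g = d g * m + g.val := ⟨_, fun _ => rfl⟩
  have hinj : Function.Injective key := by
    intro g g' hg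
    rw [hkey, hkey] at hg
    have h1 : (d g * m + g.val) % m = (d g' * m + g'.val) % m := by rw [hg]
    rw [Nat.mul_add_mod', Nat.mul_add_mod', Nat.mod_eq_of_lt (hval g),
      Nat.mod_eq_of_lt (hval g')] at h1
    exact ZMod.val_injective m h1
  have hlt : ∀ g g', key g < key g' →
      (univ.filter (fun h => key h < key g)).card < (univ.filter (fun h => key h < key g')).card := by
    intro g g' h
    refine Finset.card_lt_card ⟨fun x hx => ?_, fun h1 => ?_⟩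
    · simp only [mem_filter, mem_univ, true_and] at hx ⊢
      exact hx.trans h
    · have h2 : g ∈ univ.filter (fun h => key h < key g') := by simpa using h
      have h3 := h1 h2
      simp at h3
  refine ⟨fun g => (univ.filter (fun h => key h < key g)).card, ?_, ?_, ?_⟩
  · intro g g' h
    by_contra hne
    rcases lt_or_gt_of_ne (fun h' => hne (hinj h')) with h1 | h1
    · exact absurd h (hlt _ _ h1).ne
    · exact absurd h (hlt _ _ h1).ne'
  · intro g
    have h1 : (univ.filter (fun h => key h < key g)).card < (univ : Finset (ZMod m)).card := by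
      refine Finset.card_lt_card ⟨Finset.filter_subset _ _, fun h1 => ?_⟩
      have h2 := h1 (mem_univ g)
      simp at h2
    rwa [Finset.card_univ, ZMod.card] at h1
  · intro x hx
    obtain ⟨s, hs, h⟩ := hstep x hx
    refine ⟨s, hs, hlt _ _ ?_⟩
    rw [hkey, hkey]
    have h1 := hval (x - s)
    have h2 : (d (x - s) + 1) * m ≤ d x * m := Nat.mul_le_mul_right m h
    have h3 : (d (x - s) + 1) * m = d (x - s) * m + m := by ring
    omega

theorem bfs_core {m k : ℕ} [NeZero m] [NeZero k] (hmk : m ∣ k) (a v : ZMod k → ℝ)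
    (t0 : ZMod m) (h0 : ∀ t, t ≠ t0 → qt m a t = 0) (rk : ZMod m → ℕ)
    (hinj : Function.Injective rk) (hrkm : ∀ g, rk g < m)
    (hstep : ∀ x : ZMod m, x ≠ 0 → ∃ t, (∃ c, a c ≠ 0 ∧ pr m c = t) ∧ rk (x - (t - t0)) < rk x)
    (hc0 : ∃ c, a c ≠ 0 ∧ pr m c = t0)
    (hv : ∀ i, 0 < v i)
    (hgen : ∀ u : ZMod k, ∀ i : ZMod k, a (u - i) ≠ 0 → G6_b m a v u (pr m i) ≠ 0)
    (β M Δ L : ℝ) (hL : 1 ≤ L)
    (hbM : ∀ u g, |G6_b m a v u g| ≤ M) (hbβ : ∀ u g, G6_b m a v u g ≠ 0 → β ≤ |G6_b m a v u g|)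
    (hAM : |qt m a t0| ≤ M) (hAβ : qt m a t0 ≠ 0 → β ≤ |qt m a t0|)
    (hΔ : m * M < Δ * β) (hΔv : ∀ i, v i < Δ) (hLΔ : (m + Δ) * M < L * β)
 :
    ∃ ε : ℝ, (ε = 1 ∨ ε = -1) ∧
      (∀ i, 0 < L ^ (m - rk (pr m i)) * (Δ + ε * v i)) ∧
      (∀ u, act a (fun i => L ^ (m - rk (pr m i)) *
        (Δ + ε * v i)) u ≠ 0) ∧
      (k : ℝ) - (k / m : ℕ) ≤
        ((∑ i : ZMod k, sg (L ^ (m - rk (pr m i)) * (Δ + ε * v i)) -
          ∑ u, sg (act a (fun i => L ^ (m - rk (pr m i)) *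
            (Δ + ε * v i)) u) : ℤ) : ℝ) := by
  classical
  have hL0 : 0 < L := lt_of_lt_of_le one_pos hL
  have hm : 0 < m := Nat.pos_of_ne_zero (NeZero.ne m)
  have hM0 : 0 ≤ M := le_trans (abs_nonneg _) hAM
  have hΔ0 : 0 < Δ := lt_trans (hv 0) (hΔv 0)
  obtain ⟨R, hR⟩ : ∃ R, R = m := ⟨_, rfl⟩
  have hrkR : ∀ g, rk g < R := by rw [hR]; exact hrkm
  have hLe : (fun g => L ^ (m - rk g)) = fun g => L ^ (R - rk g) := by rw [hR]
  have hLe' : ∀ g, L ^ (m - rk g) = L ^ (R - rk g) := fun g => congrFun hLe g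
  simp only [hLe']
  obtain ⟨y, hy⟩ : ∃ y : ℝ → ZMod k → ℝ, ∀ ε i, y ε i = L ^ (R - rk (pr m i)) * (Δ + ε * v i) :=
    ⟨_, fun _ _ => rfl⟩
  have hy' : ∀ ε, (fun i => L ^ (R - rk (pr m i)) * (Δ + ε * v i)) = y ε := by
    intro ε
    funext i
    rw [hy]
  simp only [hy']
  simp only [← hy]
  obtain ⟨P, hP⟩ : ∃ P : ZMod k → ℝ, ∀ u, P u =
    Δ * (L ^ (R - rk (pr m u - t0)) * qt m a t0) := ⟨_, fun _ => rfl⟩
  obtain ⟨S, hS⟩ : ∃ S : ZMod k → ℝ, ∀ u, S u =
    ∑ g, L ^ (R - rk g) * G6_b m a v u g := ⟨_, fun _ => rfl⟩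
  have hrow : ∀ ε u, act a (y ε) u = P u + ε * S u := by
    intro ε u
    rw [← hy', G6_row hmk a v (fun g => L ^ (R - rk g)) Δ ε t0 h0 u, hP, hS]
  -- the two elements of the support of a row
  have hmem0 : ∀ u, G6_b m a v u (pr m u - t0) ≠ 0 := by
    intro u
    obtain ⟨c, hc, hct⟩ := hc0
    have h1 := hgen u (u - c) (by rwa [sub_sub_cancel])
    rwa [pr_sub hmk, hct] at h1
  have hlead : ∀ u, ∃ g0, G6_b m a v u g0 ≠ 0 ∧ ∀ g, G6_b m a v u g ≠ 0 → rk g0 ≤ rk g := by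
    intro u
    obtain ⟨g0, hg0, hmin⟩ := Finset.exists_min_image
      (univ.filter (fun g => G6_b m a v u g ≠ 0)) rk ⟨pr m u - t0, by simpa using hmem0 u⟩
    refine ⟨g0, by simpa using hg0, fun g hg => hmin g (by simpa using hg)⟩
  have hcard : (Fintype.card (ZMod m) : ℝ) = m := by rw [ZMod.card]
  have hPabs : ∀ u, |P u| = Δ * (L ^ (R - rk (pr m u - t0)) * |qt m a t0|) := by
    intro u
    rw [hP, abs_mul, abs_mul, abs_of_pos hΔ0, abs_of_pos (pow_pos hL0 _)]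
  -- domination by the second part
  have hdom : ∀ u, ∀ g0, G6_b m a v u g0 ≠ 0 → (∀ g, G6_b m a v u g ≠ 0 → rk g0 ≤ rk g) →
      rk g0 < rk (pr m u - t0) → |P u| < |S u| := by
    intro u g0 hg0 hmin hlt
    have h1 := G6_lower (G6_b m a v u) rk hinj L β M R hL (hbM u) g0 (hrkR g0) (hbβ u g0 hg0) hmin
    rw [hcard, ← hS] at h1
    refine lt_of_lt_of_le ?_ h1
    have hT : 0 < L ^ (R - rk g0 - 1) := pow_pos hL0 _
    rw [hPabs]
    calc Δ * (L ^ (R - rk (pr m u - t0)) * |qt m a t0|)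
        ≤ Δ * (L ^ (R - rk g0 - 1) * M) := by
          refine mul_le_mul_of_nonneg_left ?_ hΔ0.le
          exact mul_le_mul (pow_le_pow_right₀ hL (by omega)) hAM (abs_nonneg _) hT.le
      _ = L ^ (R - rk g0 - 1) * (Δ * M) := by ring
      _ < L ^ (R - rk g0 - 1) * (L * β - m * M) := by
          refine mul_lt_mul_of_pos_left ?_ hT
          linarith
  have hone : ∀ u, pr m u - t0 ≠ 0 → |P u| < |S u| := by
    intro u hu
    obtain ⟨g0, hg0, hmin⟩ := hlead u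
    obtain ⟨t, ⟨c, hc, hct⟩, hlt⟩ := hstep _ hu
    have h1 := hgen u (u - c) (by rwa [sub_sub_cancel])
    rw [pr_sub hmk, hct] at h1
    rw [show pr m u - t0 - (t - t0) = pr m u - t by ring] at hlt
    exact hdom u g0 hg0 hmin (lt_of_le_of_lt (hmin _ h1) hlt)
  have hne : ∀ u, |P u| ≠ |S u| := by
    intro u
    obtain ⟨g0, hg0, hmin⟩ := hlead u
    rcases lt_or_eq_of_le (hmin _ (hmem0 u)) with h1 | h1
    · exact (hdom u g0 hg0 hmin h1).ne
    · by_cases hA : qt m a t0 = 0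
      · have h2 := G6_lower (G6_b m a v u) rk hinj L β M R hL (hbM u) g0 (hrkR g0)
          (hbβ u g0 hg0) hmin
        rw [hcard, ← hS] at h2
        have hT : 0 < L ^ (R - rk g0 - 1) := pow_pos hL0 _
        have h3 : 0 < L * β - m * M := by
          have : 0 ≤ Δ * M := mul_nonneg hΔ0.le hM0
          linarith
        rw [hPabs, hA, abs_zero, mul_zero, mul_zero]
        exact (lt_of_lt_of_le (mul_pos hT h3) h2).ne
      · have h2 := G6_upper (G6_b m a v u) rk L M R hL (hbM u) g0 hmin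
        rw [hcard, ← hS, h1] at h2
        have hT : 0 < L ^ (R - rk (pr m u - t0)) := pow_pos hL0 _
        refine (lt_of_le_of_lt h2 ?_).ne'
        rw [hPabs]
        calc L ^ (R - rk (pr m u - t0)) * (m * M)
            < L ^ (R - rk (pr m u - t0)) * (Δ * β) := mul_lt_mul_of_pos_left hΔ hT
          _ ≤ L ^ (R - rk (pr m u - t0)) * (Δ * |qt m a t0|) :=
              mul_le_mul_of_nonneg_left (mul_le_mul_of_nonneg_left (hAβ hA) hΔ0.le) hT.le
          _ = Δ * (L ^ (R - rk (pr m u - t0)) * |qt m a t0|) := by ring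
  have hpos : ∀ ε : ℝ, (ε = 1 ∨ ε = -1) → ∀ i, 0 < y ε i := by
    intro ε hε i
    rw [hy]
    refine mul_pos (pow_pos hL0 _) ?_
    have h1 := hv i
    have h2 := hΔv i
    rcases hε with h | h <;> rw [h] <;> linarith
  have hrow1 : ∀ u, act a (y 1) u = P u + S u := fun u => by rw [hrow, one_mul]
  have hrow2 : ∀ u, act a (y (-1)) u = P u - S u := fun u => by rw [hrow]; ring
  have hsgy : ∀ ε : ℝ, (ε = 1 ∨ ε = -1) → ∑ i, sg (y ε i) = (k : ℤ) := by
    intro ε hε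
    rw [Finset.sum_congr rfl fun i _ => G6_sg_pos (hpos ε hε i), Finset.sum_const, Finset.card_univ,
      ZMod.card]
    simp
  have hsum : ∑ u, sg (act a (y 1) u) + ∑ u, sg (act a (y (-1)) u) ≤
      2 * ((univ.filter (fun u : ZMod k => pr m u - t0 = 0)).card : ℤ) := by
    rw [← Finset.sum_add_distrib]
    calc ∑ u, (sg (act a (y 1) u) + sg (act a (y (-1)) u))
        ≤ ∑ u : ZMod k, (if pr m u - t0 = 0 then (2 : ℤ) else 0) := by
          refine Finset.sum_le_sum fun u _ => ?_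
          rw [hrow1, hrow2]
          by_cases hu : pr m u - t0 = 0
          · rw [if_pos hu]
            have h1 := G6_sg_le (P u + S u)
            have h2 := G6_sg_le (P u - S u)
            linarith
          · rw [if_neg hu, G6_sg_cancel (hone u hu)]
      _ = _ := by
          rw [← Finset.sum_filter, Finset.sum_const, nsmul_eq_mul, mul_comm]
  have hN : ((univ.filter (fun u : ZMod k => pr m u - t0 = 0)).card : ℝ) = (k / m : ℕ) := by
    rw [← card_fibre hmk t0]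
    congr 2
    ext u
    simp only [mem_filter, mem_univ, true_and, sub_eq_zero]
  have hsumR : ((∑ u, sg (act a (y 1) u) : ℤ) : ℝ) + ((∑ u, sg (act a (y (-1)) u) : ℤ) : ℝ) ≤
      2 * ((univ.filter (fun u : ZMod k => pr m u - t0 = 0)).card : ℝ) := by
    exact_mod_cast hsum
  by_cases hV : (k : ℝ) - (k / m : ℕ) ≤ ((∑ i, sg (y 1 i) - ∑ u, sg (act a (y 1) u) : ℤ) : ℝ)
  · exact ⟨1, Or.inl rfl, hpos 1 (Or.inl rfl), fun u => by rw [hrow1]; exact (G6_ne (hne u)).1, hV⟩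
  · refine ⟨-1, Or.inr rfl, hpos (-1) (Or.inr rfl),
      fun u => by rw [hrow2]; exact (G6_ne (hne u)).2, ?_⟩
    rw [hsgy 1 (Or.inl rfl), Int.cast_sub, Int.cast_natCast] at hV
    rw [hsgy (-1) (Or.inr rfl), Int.cast_sub, Int.cast_natCast]
    push Not at hV
    linarith

/-- the fibre sums over `ZMod m` have at most one nonzero entry, but the images in `ZMod m` of the support of
`a` generate (by their differences) -/
theorem bfs_dom (k B m : ℕ) [NeZero k] [NeZero m] (hmk : m ∣ k) : ∃ B1 : ℕ, ∀ p : ℕ, p.Prime →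
    ∀ a : ZMod k → ℝ, (∀ t, Alg p k B (a t)) → ¬ Two (qt m a) →
    (∃ c, a c ≠ 0) →
    (∀ t0 : ZMod m, (∃ c, a c ≠ 0 ∧ pr m c = t0) →
      AddSubgroup.closure {s | ∃ c, a c ≠ 0 ∧ s = pr m c - t0} = ⊤) →
      AVal p k B1 a (k - (k / m : ℕ)) := by
  classical
  obtain ⟨Bv, hBv⟩ : ∃ Bv : ℕ, Bv = (k * m * k + 1) * k := ⟨_, rfl⟩
  obtain ⟨b0, hb0⟩ := liouville k (B + Bv + k + 1 + k)
  obtain ⟨b1, hb1⟩ : ∃ b1 : ℕ, b1 = B + Bv + k + 1 + k + k + 1 := ⟨_, rfl⟩
  obtain ⟨E1, hE1⟩ : ∃ E1 : ℕ, E1 = m + (b1 + b0) + (Bv + 1) := ⟨_, rfl⟩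
  obtain ⟨E2, hE2⟩ : ∃ E2 : ℕ, E2 = (E1 + 1) + (b1 + b0) := ⟨_, rfl⟩
  refine ⟨E2 * m + E1 + 1, fun p hp a ha hTwo hcc hgenT => ?_⟩
  have hp2 : 2 ≤ p := hp.two_le
  have hpR1 : (1 : ℝ) ≤ p := by exact_mod_cast (by omega : 1 ≤ p)
  have hpR2 : (2 : ℝ) ≤ p := by exact_mod_cast hp2
  have hpR0 : (0 : ℝ) < p := by linarith
  obtain ⟨c, hc⟩ := hcc
  obtain ⟨t0, h0, hc0⟩ : ∃ t0, (∀ t, t ≠ t0 → qt m a t = 0) ∧ ∃ c, a c ≠ 0 ∧ pr m c = t0 := by
    by_cases hA : ∃ t, qt m a t ≠ 0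
    · obtain ⟨t, ht⟩ := hA
      refine ⟨t, fun t' ht' => ?_, ?_⟩
      · by_contra h
        exact hTwo ⟨t', t, ht', h, ht⟩
      · unfold qt at ht
        obtain ⟨d, hd, hd1⟩ := Finset.exists_ne_zero_of_sum_ne_zero ht
        exact ⟨d, hd1, by simpa using hd⟩
    · push Not at hA
      exact ⟨pr m c, fun t _ => hA t, c, hc, rfl⟩
  obtain ⟨rk, hinj, hrkm, hstep0⟩ := bfs_rank
    ((univ.filter (fun c : ZMod k => a c ≠ 0)).image (fun c => pr m c - t0)) (by
      rw [← hgenT t0 hc0]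
      congr 1
      ext s
      simp only [Finset.coe_image, Finset.coe_filter, mem_univ, true_and, Set.mem_image,
        Set.mem_ofPred_eq]
      constructor
      · rintro ⟨c, hc, h⟩
        exact ⟨c, hc, h.symm⟩
      · rintro ⟨c, hc, h⟩
        exact ⟨c, hc, h.symm⟩)
  have hstep : ∀ x : ZMod m, x ≠ 0 →
      ∃ t, (∃ c, a c ≠ 0 ∧ pr m c = t) ∧ rk (x - (t - t0)) < rk x := by
    intro x hx
    obtain ⟨s, hs, h⟩ := hstep0 x hx
    obtain ⟨c, hc, hcs⟩ := Finset.mem_image.1 hs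
    refine ⟨pr m c, ⟨c, by simpa using hc, rfl⟩, ?_⟩
    rw [hcs]
    exact h
  -- a generic point
  obtain ⟨s0, hs1, hs2, hs3⟩ :=
    generic (F := {f : ZMod k × ZMod m // ∃ i, pr m i = f.2 ∧ a (f.1 - i) ≠ 0})
      (fun f i => if pr m i = f.1.2 then a (f.1.1 - i) else 0) (fun f => by
        obtain ⟨i, hi, hi'⟩ := f.2
        exact ⟨i, by rw [if_pos hi]; exact hi'⟩)
  have hcardF : Fintype.card {f : ZMod k × ZMod m // ∃ i, pr m i = f.2 ∧ a (f.1 - i) ≠ 0} ≤
      k * m := by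
    refine le_trans (Fintype.card_subtype_le _) ?_
    rw [Fintype.card_prod, ZMod.card, ZMod.card]
  have hs4 : s0 ≤ k * m * k + 1 :=
    le_trans hs2 (Nat.add_le_add_right (Nat.mul_le_mul_right k hcardF) 1)
  have hvN : ∀ i : ZMod k, s0 ^ i.val ≤ p ^ Bv := by
    intro i
    have h1 : s0 ≤ p ^ (k * m * k + 1) :=
      le_trans hs4 (le_trans Nat.lt_two_pow_self.le (Nat.pow_le_pow_left hp2 _))
    calc s0 ^ i.val ≤ (p ^ (k * m * k + 1)) ^ i.val := Nat.pow_le_pow_left h1 _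
      _ = p ^ ((k * m * k + 1) * i.val) := (pow_mul _ _ _).symm
      _ ≤ p ^ Bv := by
          refine Nat.pow_le_pow_right (by omega) ?_
          rw [hBv]
          exact Nat.mul_le_mul_left _ (ZMod.val_lt i).le
  obtain ⟨v, hv⟩ : ∃ v : ZMod k → ℝ, ∀ i, v i = (s0 : ℝ) ^ i.val := ⟨_, fun _ => rfl⟩
  have hvpos : ∀ i, 0 < v i := by
    intro i
    rw [hv]
    exact pow_pos (by exact_mod_cast hs1) _
  have hvle : ∀ i, v i ≤ (p : ℝ) ^ Bv := by
    intro i
    rw [hv]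
    exact_mod_cast hvN i
  have hgen : ∀ u : ZMod k, ∀ i : ZMod k, a (u - i) ≠ 0 → G6_b m a v u (pr m i) ≠ 0 := by
    intro u i hi
    have h1 := hs3 ⟨(u, pr m i), i, rfl, hi⟩
    unfold G6_b
    simp only [hv]
    exact h1
  have hbAlg : ∀ u g, Alg p k (B + Bv + k + 1 + k) (G6_b m a v u g) := by
    intro u g
    have h1 : ∀ i ∈ (univ : Finset (ZMod k)),
        Alg p k (B + Bv + k + 1) ((if pr m i = g then a (u - i) else 0) * v i) := by
      intro i _
      refine Alg.mul hp2 ?_ ?_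
      · by_cases hi : pr m i = g
        · rw [if_pos hi]
          exact ha _
        · rw [if_neg hi]
          exact Alg.mono hp2 (Nat.zero_le B) alg_zero
      · have h2 : v i = (((s0 : ℤ) ^ i.val : ℤ) : ℝ) := by
          rw [hv]
          push_cast
          rfl
        rw [h2]
        refine alg_int Bv _ ?_
        rw [abs_of_nonneg (by positivity)]
        exact_mod_cast hvN i
    have h2 := Alg.sum hp2 univ (fun i => (if pr m i = g then a (u - i) else 0) * v i) h1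
    rw [Finset.card_univ, ZMod.card] at h2
    exact h2
  have hAAlg : Alg p k (B + Bv + k + 1 + k) (qt m a t0) :=
    Alg.mono hp2 (by omega) (alg_qt hp2 a ha t0)
  have hmp : (m : ℝ) < (p : ℝ) ^ m := by
    have : m < p ^ m := Nat.lt_pow_self (by omega)
    exact_mod_cast this
  have hmE : (m : ℝ) < (p : ℝ) ^ E1 :=
    lt_of_lt_of_le hmp (pow_le_pow_right₀ hpR1 (by omega))
  obtain ⟨ε, hε, hpos, hne, hval⟩ := bfs_core hmk a v t0 h0 rk hinj hrkm hstep hc0 hvpos hgen (((p : ℝ) ^ b0)⁻¹) ((p : ℝ) ^ b1) ((p : ℝ) ^ E1) ((p : ℝ) ^ E2)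
    (one_le_pow₀ hpR1)
    (fun u g => by rw [hb1]; exact Alg.abs_le hp2 (hbAlg u g))
    (fun u g h => hb0 p hp _ (hbAlg u g) h)
    (by rw [hb1]; exact Alg.abs_le hp2 hAAlg)
    (fun h => hb0 p hp _ hAAlg h)
    (by
      rw [lt_mul_inv_iff₀ (pow_pos hpR0 _), mul_assoc, ← pow_add]
      calc (m : ℝ) * (p : ℝ) ^ (b1 + b0) < (p : ℝ) ^ m * (p : ℝ) ^ (b1 + b0) :=
            mul_lt_mul_of_pos_right hmp (pow_pos hpR0 _)
        _ = (p : ℝ) ^ (m + (b1 + b0)) := (pow_add _ _ _).symm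
        _ ≤ (p : ℝ) ^ E1 := pow_le_pow_right₀ hpR1 (by omega))
    (fun i => lt_of_le_of_lt (hvle i) (pow_lt_pow_right₀ (by linarith) (by omega)))
    (by
      rw [lt_mul_inv_iff₀ (pow_pos hpR0 _), mul_assoc, ← pow_add]
      calc ((m : ℝ) + (p : ℝ) ^ E1) * (p : ℝ) ^ (b1 + b0)
          < ((p : ℝ) ^ E1 * 2) * (p : ℝ) ^ (b1 + b0) :=
            mul_lt_mul_of_pos_right (by linarith) (pow_pos hpR0 _)
        _ ≤ ((p : ℝ) ^ E1 * p) * (p : ℝ) ^ (b1 + b0) :=
            mul_le_mul_of_nonneg_right (mul_le_mul_of_nonneg_left hpR2 (pow_pos hpR0 _).le)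
              (pow_pos hpR0 _).le
        _ = (p : ℝ) ^ E2 := by rw [← pow_succ, ← pow_add, hE2])
  refine ⟨fun i => ((p : ℝ) ^ E2) ^ (m - rk (pr m i)) *
    ((p : ℝ) ^ E1 + ε * v i), fun i => ?_, fun i => (hpos i).ne', hne, hval⟩
  have hw : ∃ w : ℤ, |w| ≤ (p : ℤ) ^ E1 ∧ ε * v i = (w : ℝ) := by
    have h1 : |((s0 : ℤ) ^ i.val)| ≤ (p : ℤ) ^ E1 := by
      rw [abs_of_nonneg (by positivity)]
      exact_mod_cast le_trans (hvN i) (Nat.pow_le_pow_right (by omega) (by omega))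
    rcases hε with h | h
    · exact ⟨(s0 : ℤ) ^ i.val, h1, by rw [h, hv, one_mul]; push_cast; rfl⟩
    · exact ⟨-((s0 : ℤ) ^ i.val), by rwa [abs_neg], by rw [h, hv, neg_one_mul]; push_cast; rfl⟩
  obtain ⟨w, hw1, hw2⟩ := hw
  have h2 : ((p : ℝ) ^ E2) ^ (m - rk (pr m i)) *
      ((p : ℝ) ^ E1 + ε * v i) =
      ((((p : ℤ) ^ E2) ^ (m - rk (pr m i)) *
        ((p : ℤ) ^ E1 + w) : ℤ) : ℝ) := by
    rw [hw2]
    push_cast
    rfl
  beta_reduce
  rw [h2]
  exact alg_int _ _ (G6_size hp2 (Nat.sub_le _ _) w hw1)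

end Pool.Agent.Helper21.FE
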