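import Pool.Agent.Helper21.FD.K7

/-!
MP_0aa406_nt, project FE (helper50), step (d): folding a class along `ZMod k → ZMod (k / g)`, `g ∣ k`, `g ∣ n`.
-/

set_option autoImplicit false

namespace Pool.Agent.Helper21.FE

open Finset Pool.Agent.Helper21.FC Pool.Agent.Helper21.FD

theorem fold_key {n m k k' g : ℕ} [NeZero k] [NeZero k'] (hk : k = k' * g)
    (hn : n = m * g) (c : ZMod k) :
    (∃ s : ℕ, ps n c = ps m (pr k' c) + s * m) ∧ tn n c = g * tn m (pr k' c) := by
  have h1 := ps_mul n c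
  have h2 := ps_mul m (pr k' c)
  have h3 := tn_lt n c
  have h4 := tn_lt m (pr k' c)
  have h5 : (pr k' c).val = c.val % k' := by unfold pr; rw [ZMod.val_natCast]
  have hkpos : 0 < k := Nat.pos_of_ne_zero (NeZero.ne k)
  have hg : 0 < g := by
    rcases Nat.eq_zero_or_pos g with h | h
    · rw [h, mul_zero] at hk; omega
    · exact h
  have h6 : c.val = k' * (c.val / k') + (pr k' c).val := by rw [h5]; exact (Nat.div_add_mod _ _).symm
  generalize tn n c = a at *
  generalize tn m (pr k' c) = b at *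
  generalize ps n c = P at *
  generalize ps m (pr k' c) = Q at *
  generalize (pr k' c).val = T at *
  generalize c.val / k' = s at *
  generalize c.val = C at *
  have e1 : (k : ℤ) * ((P : ℤ) - Q - s * m) = (a : ℤ) - g * b := by
    have h1' : (k : ℤ) * P = C * n + a := by exact_mod_cast h1
    have h2' : (k' : ℤ) * Q = T * m + b := by exact_mod_cast h2
    have h6' : (C : ℤ) = k' * s + T := by exact_mod_cast h6
    have hk' : (k : ℤ) = k' * g := by exact_mod_cast hk
    have hn' : (n : ℤ) = m * g := by exact_mod_cast hn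
    rw [h6', hn'] at h1'
    have : (k : ℤ) * Q = g * (T * m + b) := by rw [hk', ← h2']; ring
    have h7 : (k : ℤ) * (s * m) = k' * s * (m * g) := by rw [hk']; ring
    linear_combination h1' - this - h7
  have hgb : g * b < k := by
    rw [hk, mul_comm k' g]
    exact Nat.mul_lt_mul_of_pos_left h4 hg
  have e2 : (a : ℤ) - g * b = 0 := by
    refine Int.eq_zero_of_abs_lt_dvd (Dvd.intro _ e1) ?_
    have h3' : (a : ℤ) < k := by exact_mod_cast h3
    have h4' : (g : ℤ) * b < k := by exact_mod_cast hgb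
    have h0 : (0 : ℤ) ≤ a := Int.natCast_nonneg a
    have h0' : (0 : ℤ) ≤ (g : ℤ) * b := by positivity
    rw [abs_lt]
    constructor <;> linarith
  refine ⟨⟨s, ?_⟩, by exact_mod_cast (sub_eq_zero.1 e2)⟩
  rw [e2] at e1
  have e3 := (mul_eq_zero.1 e1).resolve_left (by exact_mod_cast hkpos.ne')
  have e4 : (P : ℤ) = Q + s * m := by linarith
  exact_mod_cast e4

/-- sums over the fibres, integral version -/
def fold (k' : ℕ) {k : ℕ} [NeZero k] (μ : ZMod k → ℤ) (t : ZMod k') : ℤ :=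
  ∑ c ∈ univ.filter (fun c : ZMod k => pr k' c = t), μ c

theorem fold_ev {n m k k' g : ℕ} [NeZero k] [NeZero k'] (hk : k = k' * g)
    (hn : n = m * g) (p : ℕ) (μ : ZMod k → ℤ) :
    NN p m ∣ ev p n μ - ev p m (fold k' μ) := by
  unfold ev
  have h1 : ∑ t : ZMod k', fold k' μ t * (p : ℤ) ^ ps m t =
      ∑ c : ZMod k, μ c * (p : ℤ) ^ ps m (pr k' c) := by
    rw [← Finset.sum_fiberwise_of_maps_to (g := fun c : ZMod k => pr k' c)
      (fun c _ => mem_univ (pr k' c)) (fun c => μ c * (p : ℤ) ^ ps m (pr k' c))]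
    refine Finset.sum_congr rfl (fun t _ => ?_)
    unfold fold
    rw [Finset.sum_mul]
    refine Finset.sum_congr rfl (fun c hc => ?_)
    rw [(mem_filter.1 hc).2]
  rw [h1]
  rw [← Finset.sum_sub_distrib]
  refine Finset.dvd_sum (fun c _ => ?_)
  rw [← mul_sub]
  refine Dvd.dvd.mul_left (pow_congr p m _ _ ?_) _
  obtain ⟨s, hs⟩ := (fold_key hk hn c).1
  refine ⟨s, ?_⟩
  rw [hs]
  push_cast
  ring


theorem fold_cy {n m k k' g : ℕ} [NeZero k] [NeZero k'] (hk : k = k' * g)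
    (hn : n = m * g) (a b : ZMod k) : cy n a b = cy m (pr k' a) (pr k' b) := by
  have hkpos : 0 < k := Nat.pos_of_ne_zero (NeZero.ne k)
  have hg : 0 < g := by
    rcases Nat.eq_zero_or_pos g with h | h
    · rw [h, mul_zero] at hk; omega
    · exact h
  unfold cy
  rw [(fold_key hk hn a).2, (fold_key hk hn b).2, ← mul_add]
  generalize tn m (pr k' a) + tn m (pr k' b) = s
  have h1 : g * s / k = g * s / (g * k') := by
    congr 1
    rw [hk, mul_comm]
  rw [h1]
  exact Nat.mul_div_mul_left _ _ hg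

theorem fold_rmul {n m k k' g : ℕ} [NeZero k] [NeZero k'] (hk : k = k' * g)
    (hn : n = m * g) (p : ℕ) (μ x : ZMod k → ℤ) :
    fold k' (rmul p n μ x) = rmul p m (fold k' μ) (fold k' x) := by
  have hkk : k' ∣ k := ⟨g, hk⟩
  funext t
  have h1 : rmul p m (fold k' μ) (fold k' x) t =
      ∑ i : ZMod k, (∑ c ∈ univ.filter (fun c : ZMod k => pr k' c = t - pr k' i), μ c) * x i *
        (p : ℤ) ^ cy m (t - pr k' i) (pr k' i) := by
    unfold rmul
    rw [← Finset.sum_fiberwise_of_maps_to (g := fun c : ZMod k => pr k' c)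
      (fun c _ => mem_univ (pr k' c)) (fun i : ZMod k =>
        (∑ c ∈ univ.filter (fun c : ZMod k => pr k' c = t - pr k' i), μ c) * x i *
          (p : ℤ) ^ cy m (t - pr k' i) (pr k' i))]
    refine Finset.sum_congr rfl fun j _ => ?_
    unfold fold
    rw [Finset.mul_sum, Finset.sum_mul]
    refine Finset.sum_congr rfl fun i hi => ?_
    rw [(mem_filter.1 hi).2]
  rw [h1]
  unfold fold rmul
  rw [Finset.sum_comm]
  refine Finset.sum_congr rfl fun i _ => ?_
  rw [Finset.sum_mul, Finset.sum_mul]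
  refine Finset.sum_bij' (fun u _ => u - i) (fun c _ => c + i) ?_ ?_ ?_ ?_ ?_
  · intro u hu
    rw [mem_filter] at hu ⊢
    exact ⟨mem_univ _, by rw [pr_sub hkk, hu.2]⟩
  · intro c hc
    rw [mem_filter] at hc ⊢
    exact ⟨mem_univ _, by rw [pr_add hkk, hc.2, sub_add_cancel]⟩
  · intro u _
    exact sub_add_cancel u i
  · intro c _
    exact add_sub_cancel_right c i
  · intro u hu
    rw [mem_filter] at hu
    rw [fold_cy hk hn, pr_sub hkk, hu.2]

theorem fold_single {k k' : ℕ} [NeZero k] [NeZero k'] (c : ZMod k) (v : ℤ) :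
    fold k' (Pi.single c v : ZMod k → ℤ) = (Pi.single (pr k' c) v : ZMod k' → ℤ) := by
  funext t
  unfold fold
  by_cases h : t = pr k' c
  · subst h
    rw [Pi.single_eq_same, Finset.sum_eq_single c]
    · rw [Pi.single_eq_same]
    · intro b _ hb
      rw [Pi.single_eq_of_ne hb]
    · intro h
      exact absurd (by simp) h
  · rw [Pi.single_eq_of_ne h]
    refine Finset.sum_eq_zero fun b hb => ?_
    have hbc : b ≠ c := by
      rintro rfl
      exact h (mem_filter.1 hb).2.symm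
    rw [Pi.single_eq_of_ne hbc]

theorem fold_smul {k k' : ℕ} [NeZero k] [NeZero k'] (v : ℤ) (μ : ZMod k → ℤ) :
    fold k' (fun u => v * μ u) = fun t => v * fold k' μ t := by
  funext t
  unfold fold
  rw [Finset.mul_sum]

theorem fold_bound {p B k k' : ℕ} (hp : 2 ≤ p) [NeZero k] [NeZero k'] (μ : ZMod k → ℤ)
    (hμ : ∀ t, |μ t| ≤ (p : ℤ) ^ B) (t : ZMod k') : |fold k' μ t| ≤ (p : ℤ) ^ (B + k) := by
  have hp0 : (0 : ℤ) ≤ (p : ℤ) ^ B := by positivity
  have hk : (k : ℤ) ≤ (p : ℤ) ^ k := by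
    have h1 : k < p ^ k := Nat.lt_pow_self (by omega)
    exact_mod_cast h1.le
  calc |fold k' μ t| ≤ ∑ c ∈ univ.filter (fun c : ZMod k => pr k' c = t), |μ c| :=
        Finset.abs_sum_le_sum_abs _ _
    _ ≤ ∑ c : ZMod k, |μ c| :=
        Finset.sum_le_sum_of_subset_of_nonneg (Finset.filter_subset _ _)
          (fun _ _ _ => abs_nonneg _)
    _ ≤ ∑ _c : ZMod k, (p : ℤ) ^ B := Finset.sum_le_sum fun c _ => hμ c
    _ = k * (p : ℤ) ^ B := by rw [Finset.sum_const, Finset.card_univ, ZMod.card, nsmul_eq_mul]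
    _ ≤ (p : ℤ) ^ k * (p : ℤ) ^ B := mul_le_mul_of_nonneg_right hk hp0
    _ = (p : ℤ) ^ (B + k) := by rw [← pow_add, add_comm]

/-- folding the data of a class: `k = k' g`, `n = m g` -/
theorem fold_class {p n m k k' g B h h' : ℕ} (hp : 2 ≤ p) [NeZero k] [NeZero k'] (hk : k = k' * g)
    (hn : n = m * g) (μ μ' : ZMod k → ℤ) (d d' : ℤ) (H : OneClass p n B h h' μ μ' d d') :
    OneClass p m (B + k) h h' (fold k' μ) (fold k' μ') d d' := by
  obtain ⟨hμ, hμ', ⟨α, β, c, hα, hβ, hrel⟩, hdd, ⟨r, hr⟩, ⟨r', hr'⟩⟩ := H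
  have hNN : NN p m ∣ NN p n := by rw [hn]; exact NN_dvd p m g
  have hev : ∀ (x y : ℤ) (s : ℕ) (ν : ZMod k → ℤ), NN p n ∣ x * y - (p : ℤ) ^ s * ev p n ν →
      NN p m ∣ x * y - (p : ℤ) ^ s * ev p m (fold k' ν) := by
    intro x y s ν h1
    have h2 := (fold_ev hk hn p ν).mul_left ((p : ℤ) ^ s)
    have h3 := dvd_add (hNN.trans h1) h2
    have h4 : x * y - (p : ℤ) ^ s * ev p n ν + (p : ℤ) ^ s * (ev p n ν - ev p m (fold k' ν)) =
        x * y - (p : ℤ) ^ s * ev p m (fold k' ν) := by ring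
    rwa [h4] at h3
  refine ⟨fold_bound hp μ hμ, fold_bound hp μ' hμ', ⟨α, β, pr k' c, hα.trans (by omega),
    hβ.trans (by omega), ?_⟩, hNN.trans hdd, ⟨r, hev _ _ _ _ hr⟩, ⟨r', hev _ _ _ _ hr'⟩⟩
  intro u
  have h1 : (fun u => (p : ℤ) ^ α * rmul p n μ μ' u) =
      (Pi.single c (((h * h' : ℕ) : ℤ) * (p : ℤ) ^ β) : ZMod k → ℤ) := funext hrel
  have h2 := congrArg (fold k') h1
  rw [fold_smul, fold_rmul hk hn, fold_single] at h2
  exact congrFun h2 u

end Pool.Agent.Helper21.FE
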