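import Pool.Agent.Helper21.FE.Mix

/-!
MP_0aa406_nt, project FE (helper50): the game lemmas G1, G2.
-/

set_option autoImplicit false

namespace Pool.Agent.Helper21.FE

open Finset Helper77.KZ Pool.Agent.Helper21.FC Pool.Agent.Helper21.FD
open scoped Pointwise

variable {n : ℕ}

theorem gen_of_pr [NeZero n] {g : ZMod n → ℤ} (hne : ∃ t, g t ≠ 0)
    (h : ∀ q : ℕ, q.Prime → q ∣ n → ∃ i j : ZMod n, g i ≠ 0 ∧ g j ≠ 0 ∧ pr q i ≠ pr q j) :
    Gen g := by
  classical
  obtain ⟨t0, h0⟩ := hne
  refine ⟨t0, h0, ?_⟩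
  by_contra hH
  set H : AddSubgroup (ZMod n) := AddSubgroup.closure {s | ∃ t, g t ≠ 0 ∧ s = t - t0} with hHdef
  have hidx : H.index ≠ 1 := fun h1 => hH (AddSubgroup.index_eq_one.1 h1)
  obtain ⟨q, hq, hqi⟩ := Nat.exists_prime_and_dvd hidx
  have hcard : Nat.card H * H.index = n := by
    rw [AddSubgroup.card_mul_index, Nat.card_zmod]
  have hqn : q ∣ n := hqi.trans ⟨Nat.card H, by rw [mul_comm]; exact hcard.symm⟩
  have hmem : ∀ x ∈ H, pr q x = 0 := by
    intro x hx
    have h1 : Nat.card H • (⟨x, hx⟩ : H) = 0 := by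
      have h2 : addOrderOf (⟨x, hx⟩ : H) ∣ Nat.card H := addOrderOf_dvd_natCard _
      exact addOrderOf_dvd_iff_nsmul_eq_zero.1 h2
    have h2 : Nat.card H • x = 0 := by
      have h2 := congrArg (fun z : H => (z : ZMod n)) h1
      exact h2
    have h3 : ((Nat.card H * x.val : ℕ) : ZMod n) = 0 := by
      rw [Nat.cast_mul, ZMod.natCast_zmod_val, ← nsmul_eq_mul]
      exact h2
    rw [ZMod.natCast_eq_zero_iff] at h3
    have hpos : 0 < Nat.card H := Nat.card_pos
    have h4 : H.index ∣ x.val := by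
      have : Nat.card H * H.index ∣ Nat.card H * x.val := by rw [hcard]; exact h3
      exact Nat.dvd_of_mul_dvd_mul_left hpos this
    unfold pr
    rw [ZMod.natCast_eq_zero_iff]
    exact hqi.trans h4
  obtain ⟨i, j, hi, hj, hij⟩ := h q hq hqn
  apply hij
  have h5 : ∀ t, g t ≠ 0 → pr q t = pr q t0 := by
    intro t ht
    have h6 := hmem (t - t0) (AddSubgroup.subset_closure ⟨t, ht, rfl⟩)
    rw [pr_sub hqn, sub_eq_zero] at h6
    exact h6
  rw [h5 i hi, h5 j hj]

/-- G2 -/
theorem game_one [NeZero n] {g : ZMod n → ℤ} (hg : IsSign g) (he : ∑ i, g i = 1)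
    (h : ∀ q : ℕ, q.Prime → q ∣ n → ∃ i j : ZMod n, g i ≠ 0 ∧ g j ≠ 0 ∧ pr q i ≠ pr q j) :
    Val g univ (-1) ∧ ∀ U : Finset (ZMod n), U ≠ univ → Val g U 0 := by
  have hne : ∃ t, g t ≠ 0 := by
    by_contra hcon
    push Not at hcon
    rw [Finset.sum_eq_zero (fun i _ => hcon i)] at he
    exact absurd he (by norm_num)
  have hG := gen_of_pr hne h
  exact ⟨val_one hg hG he, fun U hU => val_proper hg hG he hU⟩

/-- G1 -/
theorem game_sq [NeZero n] (hodd : Odd n) (hn : n ≠ 1) {g : ZMod n → ℤ} (hg : IsSign g)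
    (hT : 2 ≤ (TT g).card)
    (h : ∀ q : ℕ, q.Prime → q ∣ n → ∃ i j : ZMod n, g i ≠ 0 ∧ g j ≠ 0 ∧ pr q i ≠ pr q j)
    (hneg : (∃ i, g i = -1) ∨ 3 ≤ (TT g).card) (he : ∑ i, g i ≠ 1 ∨ n.minFac < n) :
    ∃ q : ℕ, Val g univ (-(q : ℤ)) ∧ (n.minFac + 1) * q ≤ n := by
  have hTne : (TT g).Nonempty := Finset.card_pos.1 (by omega)
  have hne : ∃ t, g t ≠ 0 := by
    obtain ⟨t, ht⟩ := hTne
    exact ⟨t, by unfold TT at ht; simpa using ht⟩
  have hG := gen_of_pr hne h
  rcases le_or_gt (∑ i, g i) 0 with h0 | h0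
  · exact ⟨0, by simpa using val_nonpos hg hTne h0, by simp⟩
  · rcases le_or_gt 3 (∑ i, g i) with h3 | h3
    · exact ⟨0, by simpa using val_three h3, by simp⟩
    · by_cases h1 : ∑ i, g i = 1
      · refine ⟨1, by simpa using val_one hg hG h1, ?_⟩
        rcases he with he | he
        · exact absurd h1 he
        · omega
      · have h2 : ∑ i, g i = 2 := by omega
        rcases hneg with hneg | hneg
        · exact val_two hodd hn hg h2 hneg
        · by_cases hex : ∃ i, g i = -1
          · exact val_two hodd hn hg h2 hex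
          · exfalso
            push Not at hex
            have h4 : ∑ i, g i = ((TT g).card : ℤ) := by
              unfold TT
              rw [Finset.card_filter]
              push_cast
              refine Finset.sum_congr rfl fun i _ => ?_
              rcases hg i with hi | hi | hi
              · rw [hi]; simp
              · rw [hi]; simp
              · exact absurd hi (hex i)
            omega

end Pool.Agent.Helper21.FE
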