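import Pool.Agent.Helper77.KZ.Game

/-!
MP_0aa406_nt, project FE (helper50), steps (h), (i), (j): values of the sign game for a support which generates.
-/

set_option autoImplicit false

namespace Pool.Agent.Helper21.FE

open Finset Helper77.KZ
open scoped Pointwise

variable {n : ℕ}

/-- the differences of the support generate -/
def Gen [NeZero n] (g : ZMod n → ℤ) : Prop :=
  ∃ t0, g t0 ≠ 0 ∧ AddSubgroup.closure {s | ∃ t, g t ≠ 0 ∧ s = t - t0} = ⊤

theorem Gen.nonempty [NeZero n] {g : ZMod n → ℤ} (h : Gen g) : (TT g).Nonempty := by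
  obtain ⟨t0, h0, _⟩ := h
  exact ⟨t0, by unfold TT; simpa using h0⟩

/-- a set with `|A + T| ≤ |A|` is everything -/
theorem eq_univ_of_card [NeZero n] {g : ZMod n → ℤ} (h : Gen g) {A : Finset (ZMod n)}
    (hA : A.Nonempty) (hc : (A + TT g).card ≤ A.card) : A = univ := by
  classical
  obtain ⟨t0, h0, hcl⟩ := h
  have hmem : ∀ t, g t ≠ 0 → t ∈ TT g := fun t ht => by unfold TT; simpa using ht
  have himg : ∀ t, g t ≠ 0 → A.image (fun x => x + t) = A + TT g := by
    intro t ht
    refine Finset.eq_of_subset_of_card_le ?_ ?_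
    · intro x hx
      obtain ⟨a, ha, rfl⟩ := Finset.mem_image.1 hx
      exact Finset.add_mem_add ha (hmem t ht)
    · rw [Finset.card_image_of_injective _ (fun x y hxy => add_right_cancel hxy)]
      exact hc
  let H : AddSubgroup (ZMod n) :=
    { carrier := {s | ∀ x, x ∈ A → x + s ∈ A}
      add_mem' := fun {a b} ha hb x hx => by rw [← add_assoc]; exact hb _ (ha x hx)
      zero_mem' := fun x hx => by rwa [add_zero]
      neg_mem' := fun {s} hs x hx => by
        have hm : ∀ j : ℕ, x + j • s ∈ A := by
          intro j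
          induction j with
          | zero => rwa [zero_nsmul, add_zero]
          | succ j ih => rw [succ_nsmul, ← add_assoc]; exact hs _ ih
        have h2 : (n - 1) • s + s = 0 := by
          rw [← succ_nsmul, Nat.sub_add_cancel (Nat.pos_of_ne_zero (NeZero.ne n)),
            nsmul_eq_mul, ZMod.natCast_self, zero_mul]
        rw [← eq_neg_of_add_eq_zero_left h2]
        exact hm _ }
  have hle : AddSubgroup.closure {s | ∃ t, g t ≠ 0 ∧ s = t - t0} ≤ H := by
    rw [AddSubgroup.closure_le]
    rintro s ⟨t, ht, rfl⟩ x hx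
    have h1 : x + t ∈ A.image (fun x => x + t0) := by
      rw [himg t0 h0, ← himg t ht]
      exact Finset.mem_image_of_mem _ hx
    obtain ⟨y, hy, hyx⟩ := Finset.mem_image.1 h1
    have h2 : x + (t - t0) = y := by
      have h3 : y + t0 = x + t := hyx
      have : y = x + t - t0 := by rw [← h3, add_sub_cancel_right]
      rw [this]; abel
    rw [h2]
    exact hy
  rw [hcl] at hle
  obtain ⟨a, ha⟩ := hA
  ext x
  simp only [mem_univ, iff_true]
  have h3 : (x - a) ∈ H := hle (AddSubgroup.mem_top _)
  have h4 := h3 a ha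
  rwa [add_sub_cancel] at h4

/-- if no nonempty subset of `U` is stuck, the value is nonnegative -/
theorem val_of_no_stuck [NeZero n] {g : ZMod n → ℤ} (hg : IsSign g) (hT : (TT g).Nonempty)
    (U : Finset (ZMod n)) (h : ∀ A ⊆ U, Stuck g A → A = ∅) : Val g U 0 := by
  obtain ⟨A, hAU, hA, q, h1, h2⟩ := claim hg 1 one_pos (by
    intro Y hY _ hsmall _
    exfalso
    have := Finset.card_pos.2 (hY.1.add hT)
    omega) U
  rw [h A hAU hA, Finset.empty_add, Finset.card_empty] at h2
  have hq : q = 0 := by omega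
  rw [hq] at h1
  simpa using h1

/-- sum of the signs at most zero -/
theorem val_nonpos [NeZero n] {g : ZMod n → ℤ} (hg : IsSign g) (hT : (TT g).Nonempty)
    (he : ∑ i, g i ≤ 0) : Val g univ 0 := by
  refine val_of_no_stuck hg hT _ fun A _ hA => ?_
  by_contra hne
  have hne' := Finset.nonempty_iff_ne_empty.2 hne
  have h1 := stuck_card hA
  have h2 : 0 < (A + TT g).card := Finset.card_pos.2 (hne'.add hT)
  have h3 : (0 : ℤ) < A.card := by exact_mod_cast Finset.card_pos.2 hne'
  have h4 : (0 : ℤ) < (A + TT g).card := by exact_mod_cast h2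
  nlinarith

/-- sum of the signs one: the only nonempty stuck set is everything -/
theorem stuck_univ [NeZero n] {g : ZMod n → ℤ} (h : Gen g) (he : ∑ i, g i = 1)
    {A : Finset (ZMod n)} (hA : A.Nonempty) (hst : Stuck g A) : A = univ := by
  refine eq_univ_of_card h hA ?_
  have h1 := stuck_card hst
  rw [he, mul_one] at h1
  exact_mod_cast h1.le

/-- sum of the signs one: proper subsets have nonnegative value -/
theorem val_proper [NeZero n] {g : ZMod n → ℤ} (hg : IsSign g) (h : Gen g) (he : ∑ i, g i = 1)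
    {U : Finset (ZMod n)} (hU : U ≠ univ) : Val g U 0 := by
  refine val_of_no_stuck hg h.nonempty _ fun A hAU hA => ?_
  by_contra hne
  have := stuck_univ h he (Finset.nonempty_iff_ne_empty.2 hne) hA
  rw [this] at hAU
  exact hU (Finset.univ_subset_iff.1 hAU)

/-- sum of the signs one: the value is at least `-1` -/
theorem val_one [NeZero n] {g : ZMod n → ℤ} (hg : IsSign g) (h : Gen g) (he : ∑ i, g i = 1) :
    Val g univ (-1) := by
  have hn : 0 < n := Nat.pos_of_ne_zero (NeZero.ne n)
  obtain ⟨A, _, _, q, h1, h2⟩ := claim hg n hn (by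
    intro Y hY _ hsmall _
    exfalso
    rw [stuck_univ h he hY.1 hY.2.1] at hsmall
    have h3 : (univ : Finset (ZMod n)).card ≤ (univ + TT g).card := by
      obtain ⟨t, ht⟩ := h.nonempty
      refine Finset.card_le_card fun x _ => ?_
      rw [← sub_add_cancel x t]
      exact Finset.add_mem_add (mem_univ _) ht
    rw [Finset.card_univ, ZMod.card] at h3
    omega) univ
  have h3 : (A + TT g).card ≤ n := by
    have := Finset.card_le_univ (A + TT g)
    rwa [ZMod.card] at this
  have hq : q ≤ 1 := by
    by_contra hlt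
    have h4 : n * 2 ≤ n * q := Nat.mul_le_mul_left n (by omega)
    omega
  obtain ⟨F', hF, hp⟩ := h1
  refine ⟨F', le_trans ?_ hF, hp⟩
  have : (q : ℤ) ≤ 1 := by exact_mod_cast hq
  linarith

/-- `n` odd, sum of the signs two, a negative sign: `(l + 1) q ≤ n`, `l` the least prime factor -/
theorem val_two [NeZero n] (hodd : Odd n) (hn : n ≠ 1) {g : ZMod n → ℤ} (hg : IsSign g)
    (he : ∑ i, g i = 2) (hneg : ∃ i, g i = -1) :
    ∃ q : ℕ, Val g univ (-(q : ℤ)) ∧ (n.minFac + 1) * q ≤ n := by
  have hlodd : Odd n.minFac := Odd.of_dvd_nat hodd (Nat.minFac_dvd n)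
  obtain ⟨A, _, _, q, h1, h2⟩ := claim hg (n.minFac + 1) (Nat.succ_pos _) (by
    intro Y hY hYodd hsmall hsub
    refine core2 hodd hn hg he hneg hY hYodd ?_ hsub
    have h1 := stuck_card hY.2.1
    rw [he] at h1
    have h2 : (Y + TT g).card = Y.card * 2 := by exact_mod_cast h1
    obtain ⟨j, hj⟩ := hlodd
    omega) univ
  refine ⟨q, h1, h2.trans ?_⟩
  have := Finset.card_le_univ (A + TT g)
  rwa [ZMod.card] at this

end Pool.Agent.Helper21.FE
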