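import Pool.Agent.Helper21.FD.G6
import Pool.Agent.Helper21.FD.G2
import Pool.Agent.Helper21.FE.Val

/-!
MP_0aa406_nt, project FE (helper50), step (i): the mixture direction.  `k = k' l`; the fibre sums `A = qt l a` have
sum of signs one, but the signs of `a` do not: value at least `k - k / l + 1`.
-/

set_option autoImplicit false

namespace Pool.Agent.Helper21.FE

open Finset Pool.Agent.Helper21.FC Pool.Agent.Helper21.FD

theorem sg_zero : sg (0 : ℝ) = 0 := by
  unfold sg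
  rw [if_neg (lt_irrefl _), if_neg (lt_irrefl _)]

theorem sg_pos {x : ℝ} (h : 0 < x) : sg x = 1 := by unfold sg; rw [if_pos h]

theorem sg_neg {x : ℝ} (h : x < 0) : sg x = -1 := by
  unfold sg; rw [if_neg (not_lt.2 h.le), if_pos h]

theorem sg_le_one (x : ℝ) : sg x ≤ 1 := by
  unfold sg; split_ifs <;> norm_num

theorem sg_eq_zero {x : ℝ} : sg x = 0 ↔ x = 0 := by
  constructor
  · intro h
    rcases lt_trichotomy x 0 with h1 | h1 | h1
    · rw [sg_neg h1] at h; norm_num at h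
    · exact h1
    · rw [sg_pos h1] at h; norm_num at h
  · rintro rfl; exact sg_zero

theorem sg_sign (σ : ℤ) (hσ : σ = 1 ∨ σ = -1) (x : ℝ) : sg ((σ : ℝ) * x) = σ * sg x := by
  rcases hσ with h | h <;> rw [h]
  · simp
  · rcases lt_trichotomy x 0 with h1 | h1 | h1
    · rw [sg_neg h1, sg_pos (by push_cast; linarith)]; norm_num
    · rw [h1, mul_zero, sg_zero]; norm_num
    · rw [sg_pos h1, sg_neg (by push_cast; linarith)]; norm_num

theorem sg_dom {x y : ℝ} (h : |y| < |x|) : sg (x + y) = sg x := by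
  have hy := abs_lt.1 h
  rcases lt_or_ge 0 x with hx | hx
  · rw [abs_of_pos hx] at hy
    rw [sg_pos hx, sg_pos (by linarith [hy.1])]
  · have hx' : x < 0 := by
      refine lt_of_le_of_ne hx fun h0 => ?_
      rw [h0, abs_zero] at h
      exact absurd h (not_lt.2 (abs_nonneg _))
    rw [abs_of_neg hx'] at hy
    rw [sg_neg hx', sg_neg (by linarith [hy.2])]

theorem sum_fib {m k : ℕ} [NeZero m] [NeZero k] (h : m ∣ k) (f : ZMod m → ℤ) :
    ∑ c : ZMod k, f (pr m c) = ((k / m : ℕ) : ℤ) * ∑ t : ZMod m, f t := by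
  rw [← Finset.sum_fiberwise_of_maps_to (g := fun c : ZMod k => pr m c)
    (fun c _ => mem_univ (pr m c)) (fun c => f (pr m c)), Finset.mul_sum]
  refine Finset.sum_congr rfl (fun t _ => ?_)
  rw [Finset.sum_congr rfl (g := fun _ => f t)
    (fun c hc => by rw [(mem_filter.1 hc).2]), Finset.sum_const, card_fibre h t, nsmul_eq_mul]

/-- the third part of a row -/
noncomputable def Th (l : ℕ) {k : ℕ} [NeZero k] (a : ZMod k → ℝ) (w : ZMod l → ℝ) (u : ZMod k) : ℝ :=
  ∑ i : ZMod k, if pr l i = 0 then 0 else a (u - i) * w (pr l i)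

/-- the direction -/
noncomputable def dirn (l : ℕ) {k : ℕ} (v : ZMod k → ℝ) (w : ZMod l → ℝ) (L : ℝ) (σ τ : ℤ)
    (i : ZMod k) : ℝ :=
  if pr l i = 0 then (if i = 0 then (σ : ℝ) * L ^ 2 else 0) + (τ : ℝ) * (L * v i) else w (pr l i)

theorem pr_zero {l k : ℕ} [NeZero k] : pr l (0 : ZMod k) = 0 := by
  unfold pr
  rw [ZMod.val_zero, Nat.cast_zero]

theorem dirn_row {l k : ℕ} [NeZero l] [NeZero k] (a v : ZMod k → ℝ) (w : ZMod l → ℝ) (L : ℝ)
    (σ τ : ℤ) (u : ZMod k) : act a (dirn l v w L σ τ) u =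
      (σ : ℝ) * (L ^ 2 * a u) + ((τ : ℝ) * (L * G6_b l a v u 0) + Th l a w u) := by
  have h1 : (σ : ℝ) * (L ^ 2 * a u) =
      ∑ i : ZMod k, if i = 0 then (σ : ℝ) * (L ^ 2 * a (u - i)) else 0 := by
    rw [Finset.sum_ite_eq' univ (0 : ZMod k), if_pos (mem_univ _), sub_zero]
  rw [h1]
  unfold act Th G6_b
  rw [Finset.mul_sum, Finset.mul_sum, ← Finset.sum_add_distrib, ← Finset.sum_add_distrib]
  refine Finset.sum_congr rfl fun i _ => ?_
  unfold dirn
  by_cases hi : pr l i = 0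
  · rw [if_pos hi, if_pos hi, if_pos hi]
    by_cases h0 : i = 0
    · rw [if_pos h0, if_pos h0]; ring
    · rw [if_neg h0, if_neg h0]; ring
  · rw [if_neg hi, if_neg hi, if_neg hi]
    have h0 : i ≠ 0 := by
      rintro rfl
      exact hi pr_zero
    rw [if_neg h0]; ring

theorem mix_core {l k : ℕ} [NeZero l] [NeZero k] (hlk : l ∣ k) (a v : ZMod k → ℝ)
    (w : ZMod l → ℝ) (hA : ∀ c, a c ≠ 0 → qt l a (pr l c) ≠ 0)
    (hv : ∀ i, 0 < v i) (hgen : ∀ u, qt l a (pr l u) ≠ 0 → G6_b l a v u 0 ≠ 0)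
    (hw0 : ∀ t, w t ≠ 0) (hrow : ∀ t, qt l a t = 0 → act (qt l a) w t ≠ 0)
    (hwv : (l : ℤ) ≤ ∑ t, sg (w t) -
      ∑ t ∈ univ.filter (fun t => qt l a t = 0), sg (act (qt l a) w t))
    (L β M : ℝ) (hL : 1 ≤ L) (hLv : ∀ i, v i < L) (hLM : 2 * M < L * β)
    (hβa : ∀ u, a u ≠ 0 → β ≤ |a u|) (hβS : ∀ u, G6_b l a v u 0 ≠ 0 → β ≤ |G6_b l a v u 0|)
    (hM1 : ∀ u, |G6_b l a v u 0| ≤ M) (hM2 : ∀ u, |Th l a w u| ≤ M)
    (he : ∑ c, sg (a c) ≠ 1) :
    ∃ σ τ : ℤ, (σ = 1 ∨ σ = -1) ∧ (τ = 1 ∨ τ = -1) ∧ (∀ i, dirn l v w L σ τ i ≠ 0) ∧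
      (∀ u, act a (dirn l v w L σ τ) u ≠ 0) ∧
      (k : ℤ) - (k / l : ℕ) + 1 ≤
        ∑ i, sg (dirn l v w L σ τ i) - ∑ u, sg (act a (dirn l v w L σ τ) u) := by
  classical
  have hL0 : 0 < L := by linarith
  have hM0 : 0 ≤ M := (abs_nonneg _).trans (hM1 0)
  have hβ0 : 0 < L * β := by linarith
  have hβp : 0 < β := by
    by_contra h
    push Not at h
    nlinarith
  -- signs of the entries
  have hent : ∀ σ τ : ℤ, (σ = 1 ∨ σ = -1) → (τ = 1 ∨ τ = -1) → ∀ i,
      sg (dirn l v w L σ τ i) = σ * (if i = 0 then 1 else 0) +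
        τ * (if i ≠ 0 ∧ pr l i = 0 then 1 else 0) + (if pr l i = 0 then 0 else sg (w (pr l i))) := by
    intro σ τ hσ hτ i
    unfold dirn
    by_cases hi : pr l i = 0
    · rw [if_pos hi]
      by_cases h0 : i = 0
      · rw [if_pos h0, if_pos h0, if_neg (fun h => h.1 h0), if_pos hi, sg_dom, sg_sign σ hσ,
          sg_pos (by positivity)]
        · ring
        · have h1 : |((τ : ℝ) * (L * v i))| = L * v i := by
            rw [abs_mul, abs_of_pos (mul_pos hL0 (hv i))]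
            rcases hτ with h | h <;> rw [h] <;> simp
          have h2 : |((σ : ℝ) * L ^ 2)| = L ^ 2 := by
            rw [abs_mul, abs_of_pos (pow_pos hL0 2)]
            rcases hσ with h | h <;> rw [h] <;> simp
          rw [h1, h2, pow_two]
          exact mul_lt_mul_of_pos_left (hLv i) hL0
      · rw [if_neg h0, if_neg h0, if_pos ⟨h0, hi⟩, if_pos hi, zero_add, sg_sign τ hτ,
          sg_pos (mul_pos hL0 (hv i))]
        ring
    · have h0 : i ≠ 0 := by
        rintro rfl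
        exact hi pr_zero
      rw [if_neg hi, if_neg h0, if_neg (fun h => hi h.2), if_neg hi]
      ring
  -- rows with vanishing fibre sum
  have hvan : ∀ u, qt l a (pr l u) = 0 → a u = 0 ∧ G6_b l a v u 0 = 0 ∧
      Th l a w u = act (qt l a) w (pr l u) := by
    intro u hu
    have h1 : ∀ i, pr l i = 0 → a (u - i) = 0 := by
      intro i hi
      by_contra hne
      have := hA _ hne
      rw [pr_sub hlk, hi, sub_zero] at this
      exact this hu
    refine ⟨?_, ?_, ?_⟩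
    · have := h1 0 pr_zero
      rwa [sub_zero] at this
    · unfold G6_b
      refine Finset.sum_eq_zero fun i _ => ?_
      by_cases hi : pr l i = 0
      · rw [if_pos hi, h1 i hi, zero_mul]
      · rw [if_neg hi, zero_mul]
    · rw [← act_lift hlk]
      unfold Th act
      refine Finset.sum_congr rfl fun i _ => ?_
      by_cases hi : pr l i = 0
      · rw [if_pos hi, h1 i hi, zero_mul]
      · rw [if_neg hi]
  -- rows
  have hrows : ∀ σ τ : ℤ, (σ = 1 ∨ σ = -1) → (τ = 1 ∨ τ = -1) → ∀ u,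
      sg (act a (dirn l v w L σ τ) u) = σ * sg (a u) +
        τ * (if a u = 0 ∧ qt l a (pr l u) ≠ 0 then sg (G6_b l a v u 0) else 0) +
        (if qt l a (pr l u) = 0 then sg (act (qt l a) w (pr l u)) else 0) := by
    intro σ τ hσ hτ u
    rw [dirn_row]
    have habsτ : |((τ : ℝ) * (L * G6_b l a v u 0))| = L * |G6_b l a v u 0| := by
      rw [abs_mul, abs_mul, abs_of_pos hL0]
      rcases hτ with h | h <;> rw [h] <;> simp
    by_cases h0 : qt l a (pr l u) = 0
    · obtain ⟨h1, h2, h3⟩ := hvan u h0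
      rw [h1, h2, h3, if_neg (fun h => h.2 h0), if_pos h0, sg_zero]
      simp
    · rw [if_neg h0]
      by_cases ha : a u = 0
      · rw [if_pos ⟨ha, h0⟩, ha, mul_zero, mul_zero, zero_add, sg_zero, sg_dom, sg_sign τ hτ]
        · have hS := hgen u h0
          rcases lt_or_gt_of_ne hS with h | h
          · rw [sg_neg h, sg_neg (mul_neg_of_pos_of_neg hL0 h)]; ring
          · rw [sg_pos h, sg_pos (mul_pos hL0 h)]; ring
        · rw [habsτ]
          have h1 := hβS u (hgen u h0)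
          have h2 : L * β ≤ L * |G6_b l a v u 0| := mul_le_mul_of_nonneg_left h1 hL0.le
          have h3 := hM2 u
          linarith
      · rw [if_neg (fun h => ha h.1), sg_dom, sg_sign σ hσ]
        · have : 0 < L ^ 2 := pow_pos hL0 2
          rcases lt_or_gt_of_ne ha with h | h
          · rw [sg_neg h, sg_neg (mul_neg_of_pos_of_neg this h)]; ring
          · rw [sg_pos h, sg_pos (mul_pos this h)]; ring
        · have h1 : |((σ : ℝ) * (L ^ 2 * a u))| = L ^ 2 * |a u| := by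
            rw [abs_mul, abs_mul, abs_of_pos (pow_pos hL0 2)]
            rcases hσ with h | h <;> rw [h] <;> simp
          rw [h1]
          have h2 := abs_add_le ((τ : ℝ) * (L * G6_b l a v u 0)) (Th l a w u)
          rw [habsτ] at h2
          have h3 : L * |G6_b l a v u 0| ≤ L * M := mul_le_mul_of_nonneg_left (hM1 u) hL0.le
          have h4 := hM2 u
          have h5 : L ^ 2 * β ≤ L ^ 2 * |a u| :=
            mul_le_mul_of_nonneg_left (hβa u ha) (pow_pos hL0 2).le
          have h6 : L * (2 * M) < L * (L * β) := mul_lt_mul_of_pos_left hLM hL0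
          have h7 : M ≤ L * M := le_mul_of_one_le_left hM0 hL
          have h8 : L ^ 2 * β = L * (L * β) := by ring
          linarith
  -- nonvanishing
  have hne1 : ∀ σ τ : ℤ, (σ = 1 ∨ σ = -1) → (τ = 1 ∨ τ = -1) → ∀ i,
      dirn l v w L σ τ i ≠ 0 := by
    intro σ τ hσ hτ i h
    have h1 := hent σ τ hσ hτ i
    rw [h, sg_zero] at h1
    by_cases hi : pr l i = 0
    · by_cases h0 : i = 0
      · rw [if_pos h0, if_neg (fun h => h.1 h0), if_pos hi] at h1
        omega
      · rw [if_neg h0, if_pos ⟨h0, hi⟩, if_pos hi] at h1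
        omega
    · have h0 : i ≠ 0 := by
        rintro rfl
        exact hi pr_zero
      rw [if_neg h0, if_neg (fun h => hi h.2), if_neg hi] at h1
      have h2 : sg (w (pr l i)) ≠ 0 := fun h => hw0 _ (sg_eq_zero.1 h)
      apply h2
      linarith
  have hne2 : ∀ σ τ : ℤ, (σ = 1 ∨ σ = -1) → (τ = 1 ∨ τ = -1) → ∀ u,
      act a (dirn l v w L σ τ) u ≠ 0 := by
    intro σ τ hσ hτ u h
    have h1 := hrows σ τ hσ hτ u
    rw [h, sg_zero] at h1
    by_cases h0 : qt l a (pr l u) = 0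
    · rw [(hvan u h0).1, if_neg (fun h => h.2 h0), if_pos h0, sg_zero] at h1
      have h2 : sg (act (qt l a) w (pr l u)) ≠ 0 := fun h => hrow _ h0 (sg_eq_zero.1 h)
      apply h2
      linarith
    · rw [if_neg h0] at h1
      by_cases ha : a u = 0
      · rw [ha, if_pos ⟨rfl, h0⟩, sg_zero] at h1
        have h2 : sg (G6_b l a v u 0) ≠ 0 := fun h => hgen u h0 (sg_eq_zero.1 h)
        rcases hτ with h3 | h3 <;> rw [h3] at h1 <;> apply h2 <;> linarith
      · rw [if_neg (fun h => ha h.1)] at h1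
        have h2 : sg (a u) ≠ 0 := fun h => ha (sg_eq_zero.1 h)
        rcases hσ with h3 | h3 <;> rw [h3] at h1 <;> apply h2 <;> linarith
  -- the third part
  have h3rd : (k : ℤ) - (k / l : ℕ) ≤ (∑ i : ZMod k, if pr l i = 0 then 0 else sg (w (pr l i))) -
      ∑ u : ZMod k, if qt l a (pr l u) = 0 then sg (act (qt l a) w (pr l u)) else 0 := by
    rw [sum_fib hlk (fun t => if t = 0 then 0 else sg (w t)),
      sum_fib hlk (fun t => if qt l a t = 0 then sg (act (qt l a) w t) else 0), ← mul_sub]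
    have h1 : ∑ t, sg (w t) = (∑ t, if t = 0 then 0 else sg (w t)) + sg (w 0) := by
      rw [← Finset.add_sum_erase univ (fun t => sg (w t)) (mem_univ (0 : ZMod l)),
        ← Finset.add_sum_erase univ (fun t => if t = 0 then 0 else sg (w t))
          (mem_univ (0 : ZMod l)), if_pos rfl, zero_add, add_comm]
      congr 1
      refine Finset.sum_congr rfl fun t ht => ?_
      rw [if_neg (Finset.mem_erase.1 ht).1]
    have h2 : ∑ t ∈ univ.filter (fun t => qt l a t = 0), sg (act (qt l a) w t) =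
        ∑ t, if qt l a t = 0 then sg (act (qt l a) w t) else 0 := Finset.sum_filter _ _
    rw [h1, h2] at hwv
    have h4 := sg_le_one (w 0)
    have h5 : (l : ℤ) - 1 ≤ (∑ t, if t = 0 then 0 else sg (w t)) -
        ∑ t, if qt l a t = 0 then sg (act (qt l a) w t) else 0 := by linarith
    have h6 : ((k / l : ℕ) : ℤ) * ((l : ℤ) - 1) = (k : ℤ) - (k / l : ℕ) := by
      have : (k / l) * l = k := Nat.div_mul_cancel hlk
      have h7 : ((k / l : ℕ) : ℤ) * (l : ℤ) = k := by exact_mod_cast this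
      linear_combination h7
    rw [← h6]
    exact mul_le_mul_of_nonneg_left h5 (Int.natCast_nonneg _)
  obtain ⟨x, hx⟩ : ∃ x : ℤ, x = 1 - ∑ c, sg (a c) := ⟨_, rfl⟩
  obtain ⟨z, hz⟩ : ∃ z : ℤ, z = (∑ i : ZMod k, if i ≠ 0 ∧ pr l i = 0 then 1 else 0) -
      ∑ u, (if a u = 0 ∧ qt l a (pr l u) ≠ 0 then sg (G6_b l a v u 0) else 0) := ⟨_, rfl⟩
  have hV : ∀ σ τ : ℤ, (σ = 1 ∨ σ = -1) → (τ = 1 ∨ τ = -1) →
      σ * x + τ * z + ((k : ℤ) - (k / l : ℕ)) ≤
      ∑ i, sg (dirn l v w L σ τ i) - ∑ u, sg (act a (dirn l v w L σ τ) u) := by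
    intro σ τ hσ hτ
    rw [Finset.sum_congr rfl (fun i _ => hent σ τ hσ hτ i),
      Finset.sum_congr rfl (fun u _ => hrows σ τ hσ hτ u), Finset.sum_add_distrib,
      Finset.sum_add_distrib, Finset.sum_add_distrib, Finset.sum_add_distrib, ← Finset.mul_sum,
      ← Finset.mul_sum, ← Finset.mul_sum, ← Finset.mul_sum, Finset.sum_ite_eq' univ (0 : ZMod k),
      if_pos (mem_univ _), hx, hz]
    linarith
  have hx0 : x ≠ 0 := fun h => he (by linarith)
  obtain ⟨σ, hσ, hσx⟩ : ∃ σ : ℤ, (σ = 1 ∨ σ = -1) ∧ 1 ≤ σ * x := by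
    rcases lt_or_gt_of_ne hx0 with h | h
    · exact ⟨-1, Or.inr rfl, by linarith⟩
    · exact ⟨1, Or.inl rfl, by linarith⟩
  obtain ⟨τ, hτ, hτz⟩ : ∃ τ : ℤ, (τ = 1 ∨ τ = -1) ∧ 0 ≤ τ * z := by
    rcases le_total 0 z with h | h
    · exact ⟨1, Or.inl rfl, by linarith⟩
    · exact ⟨-1, Or.inr rfl, by linarith⟩
  refine ⟨σ, τ, hσ, hτ, hne1 σ τ hσ hτ, hne2 σ τ hσ hτ, ?_⟩
  have := hV σ τ hσ hτ
  linarith

end Pool.Agent.Helper21.FE
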