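import Pool.Agent.Helper21.FE.BFS
import Pool.Agent.Helper21.FE.Game

/-!
MP_0aa406_nt, project FE (helper50): real directions: breadth first search and mixture, without bounds.
-/

set_option autoImplicit false

namespace Pool.Agent.Helper21.FE

open Finset Pool.Agent.Helper21.FC Pool.Agent.Helper21.FD

theorem exists_low {F : Type} [Fintype F] (f : F → ℝ) :
    ∃ β : ℝ, 0 < β ∧ ∀ i, f i ≠ 0 → β ≤ |f i| := by
  classical
  by_cases h : (univ.filter (fun i => f i ≠ 0)).Nonempty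
  · obtain ⟨i0, hi0, hmin⟩ := Finset.exists_min_image _ (fun i => |f i|) h
    have h1 : f i0 ≠ 0 := by simpa using hi0
    exact ⟨|f i0|, abs_pos.2 h1, fun i hi => hmin i (by simpa using hi)⟩
  · refine ⟨1, one_pos, fun i hi => ?_⟩
    exact absurd ⟨i, by simpa using hi⟩ h

theorem exists_up {F : Type} [Fintype F] (f : F → ℝ) : ∃ M : ℝ, 0 ≤ M ∧ ∀ i, |f i| ≤ M := by
  classical
  exact ⟨∑ i, |f i|, Finset.sum_nonneg fun i _ => abs_nonneg _, fun i =>
    Finset.single_le_sum (f := fun i => |f i|) (fun j _ => abs_nonneg (f j)) (mem_univ i)⟩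

theorem pr_pr {q m k : ℕ} [NeZero m] [NeZero k] (hqm : q ∣ m) (c : ZMod k) :
    pr q (pr m c) = pr q c := by
  unfold pr
  rw [ZMod.val_natCast, ZMod.natCast_eq_natCast_iff]
  exact (Nat.mod_modEq _ _).of_dvd hqm

/-- a set which meets at least two fibres of every prime quotient generates (by its differences) -/
theorem closure_of_pr {n : ℕ} [NeZero n] (S : ZMod n → Prop) (t0 : ZMod n)
    (h : ∀ q : ℕ, q.Prime → q ∣ n → ∃ i j : ZMod n, S i ∧ S j ∧ pr q i ≠ pr q j) :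
    AddSubgroup.closure {s | ∃ t, S t ∧ s = t - t0} = ⊤ := by
  classical
  by_contra hH
  set H : AddSubgroup (ZMod n) := AddSubgroup.closure {s | ∃ t, S t ∧ s = t - t0} with hHdef
  have hidx : H.index ≠ 1 := fun h1 => hH (AddSubgroup.index_eq_one.1 h1)
  obtain ⟨q, hq, hqi⟩ := Nat.exists_prime_and_dvd hidx
  have hcard : Nat.card H * H.index = n := by
    rw [AddSubgroup.card_mul_index, Nat.card_zmod]
  have hqn : q ∣ n := hqi.trans ⟨Nat.card H, by rw [mul_comm]; exact hcard.symm⟩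
  have hmem : ∀ x ∈ H, pr q x = 0 := by
    intro x hx
    have h1 : Nat.card H • (⟨x, hx⟩ : H) = 0 := by
      have h2 : addOrderOf (⟨x, hx⟩ : H) ∣ Nat.card H := addOrderOf_dvd_natCard _
      exact addOrderOf_dvd_iff_nsmul_eq_zero.1 h2
    have h2 : Nat.card H • x = 0 := by
      have h2 := congrArg (fun z : H => (z : ZMod n)) h1
      exact h2
    have h3 : ((Nat.card H * x.val : ℕ) : ZMod n) = 0 := by
      rw [Nat.cast_mul, ZMod.natCast_zmod_val, ← nsmul_eq_mul]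
      exact h2
    rw [ZMod.natCast_eq_zero_iff] at h3
    have hpos : 0 < Nat.card H := Nat.card_pos
    have h4 : H.index ∣ x.val := by
      have : Nat.card H * H.index ∣ Nat.card H * x.val := by rw [hcard]; exact h3
      exact Nat.dvd_of_mul_dvd_mul_left hpos this
    unfold pr
    rw [ZMod.natCast_eq_zero_iff]
    exact hqi.trans h4
  obtain ⟨i, j, hi, hj, hij⟩ := h q hq hqn
  apply hij
  have h5 : ∀ t, S t → pr q t = pr q t0 := by
    intro t ht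
    have h6 := hmem (t - t0) (AddSubgroup.subset_closure ⟨t, ht, rfl⟩)
    rw [pr_sub hqn, sub_eq_zero] at h6
    exact h6
  rw [h5 i hi, h5 j hj]

/-- distance in the Cayley graph: every nonzero element has a predecessor of smaller distance -/
theorem bfs_dist {m : ℕ} [NeZero m] (T : Finset (ZMod m)) (t0 : ZMod m)
    (hgen : ∀ q : ℕ, q.Prime → q ∣ m → ∃ t ∈ T, ∃ t' ∈ T, pr q t ≠ pr q t') :
    ∃ J : ZMod m → ℕ, Function.Injective J ∧ (∀ g, J g < m) ∧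
      ∀ x, x ≠ 0 → ∃ t ∈ T, J (x - (t - t0)) < J x := by
  classical
  obtain ⟨rk, h1, h2, h3⟩ := bfs_rank (T.image (fun t => t - t0)) (by
    rw [← closure_of_pr (fun t => t ∈ T) t0 (fun q hq hqm => by
      obtain ⟨t, ht, t', ht', h⟩ := hgen q hq hqm
      exact ⟨t, t', ht, ht', h⟩)]
    congr 1
    ext s
    simp only [Finset.coe_image, Set.mem_image, Finset.mem_coe, Set.mem_ofPred_eq]
    constructor
    · rintro ⟨c, hc, h⟩
      exact ⟨c, hc, h.symm⟩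
    · rintro ⟨c, hc, h⟩
      exact ⟨c, hc, h.symm⟩)
  refine ⟨rk, h1, h2, fun x hx => ?_⟩
  obtain ⟨s, hs, h⟩ := h3 x hx
  obtain ⟨t, ht, rfl⟩ := Finset.mem_image.1 hs
  exact ⟨t, ht, h⟩

/-- domination along a breadth first search, real version -/
theorem real_bfs {m k : ℕ} [NeZero m] [NeZero k] (hmk : m ∣ k) (a : ZMod k → ℝ)
    (hnot : ¬ Two (qt m a)) (hne : ∃ c, a c ≠ 0)
    (hgen : ∀ q : ℕ, q.Prime → q ∣ m → ∃ c c', a c ≠ 0 ∧ a c' ≠ 0 ∧ pr q c ≠ pr q c') :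
    ∃ y : ZMod k → ℝ, (∀ i, y i ≠ 0) ∧ (∀ u, act a y u ≠ 0) ∧
      (k : ℤ) - ((k / m : ℕ) : ℤ) ≤ ∑ i, sg (y i) - ∑ u, sg (act a y u) := by
  classical
  obtain ⟨c, hc⟩ := hne
  obtain ⟨t0, h0, hc0⟩ : ∃ t0, (∀ t, t ≠ t0 → qt m a t = 0) ∧ ∃ c, a c ≠ 0 ∧ pr m c = t0 := by
    by_cases hA : ∃ t, qt m a t ≠ 0
    · obtain ⟨t, ht⟩ := hA
      refine ⟨t, fun t' ht' => ?_, ?_⟩
      · by_contra h
        exact hnot ⟨t', t, ht', h, ht⟩
      · unfold qt at ht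
        obtain ⟨d, hd, hd1⟩ := Finset.exists_ne_zero_of_sum_ne_zero ht
        exact ⟨d, hd1, by simpa using hd⟩
    · push Not at hA
      exact ⟨pr m c, fun t _ => hA t, c, hc, rfl⟩
  obtain ⟨rk, hinj, hrkm, hstep0⟩ := bfs_dist
    ((univ.filter (fun c : ZMod k => a c ≠ 0)).image (fun c => pr m c)) t0 (by
      intro q hq hqm
      obtain ⟨c, c', h1, h2, h3⟩ := hgen q hq hqm
      refine ⟨pr m c, Finset.mem_image_of_mem _ (by simpa using h1), pr m c',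
        Finset.mem_image_of_mem _ (by simpa using h2), ?_⟩
      rwa [pr_pr hqm, pr_pr hqm])
  have hstep : ∀ x : ZMod m, x ≠ 0 →
      ∃ t, (∃ c, a c ≠ 0 ∧ pr m c = t) ∧ rk (x - (t - t0)) < rk x := by
    intro x hx
    obtain ⟨t, ht, h⟩ := hstep0 x hx
    obtain ⟨c, hc, hcs⟩ := Finset.mem_image.1 ht
    exact ⟨t, ⟨c, by simpa using hc, hcs⟩, h⟩
  obtain ⟨s0, hs1, _, hs3⟩ :=
    generic (F := {f : ZMod k × ZMod m // ∃ i, pr m i = f.2 ∧ a (f.1 - i) ≠ 0})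
      (fun f i => if pr m i = f.1.2 then a (f.1.1 - i) else 0) (fun f => by
        obtain ⟨i, hi, hi'⟩ := f.2
        exact ⟨i, by rw [if_pos hi]; exact hi'⟩)
  obtain ⟨v, hv⟩ : ∃ v : ZMod k → ℝ, ∀ i, v i = (s0 : ℝ) ^ i.val := ⟨_, fun _ => rfl⟩
  have hvpos : ∀ i, 0 < v i := by
    intro i
    rw [hv]
    exact pow_pos (by exact_mod_cast hs1) _
  have hgen' : ∀ u : ZMod k, ∀ i : ZMod k, a (u - i) ≠ 0 → G6_b m a v u (pr m i) ≠ 0 := by
    intro u i hi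
    have h1 := hs3 ⟨(u, pr m i), i, rfl, hi⟩
    unfold G6_b
    simp only [hv]
    exact h1
  obtain ⟨β1, hβ1, hβ1'⟩ := exists_low (fun x : ZMod k × ZMod m => G6_b m a v x.1 x.2)
  obtain ⟨M1, hM1, hM1'⟩ := exists_up (fun x : ZMod k × ZMod m => G6_b m a v x.1 x.2)
  obtain ⟨V, hV, hV'⟩ := exists_up v
  obtain ⟨β, hβ⟩ : ∃ β, β = if qt m a t0 = 0 then β1 else min β1 |qt m a t0| := ⟨_, rfl⟩
  have hβ0 : 0 < β := by
    rw [hβ]
    split_ifs with h
    · exact hβ1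
    · exact lt_min hβ1 (abs_pos.2 h)
  have hββ1 : β ≤ β1 := by
    rw [hβ]
    split_ifs with h
    · exact le_refl _
    · exact min_le_left _ _
  obtain ⟨M, hM⟩ : ∃ M, M = M1 + |qt m a t0| := ⟨_, rfl⟩
  have hA0 := abs_nonneg (qt m a t0)
  have hM0 : 0 ≤ M := by rw [hM]; linarith
  obtain ⟨Δ, hΔ⟩ : ∃ Δ, Δ = m * M / β + 1 + V := ⟨_, rfl⟩
  have hmM : 0 ≤ m * M / β := div_nonneg (mul_nonneg (Nat.cast_nonneg _) hM0) hβ0.le
  have hΔ0 : 0 < Δ := by rw [hΔ]; linarith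
  obtain ⟨L, hL⟩ : ∃ L, L = (m + Δ) * M / β + 1 := ⟨_, rfl⟩
  have hLnn : 0 ≤ (m + Δ) * M / β :=
    div_nonneg (mul_nonneg (add_nonneg (Nat.cast_nonneg _) hΔ0.le) hM0) hβ0.le
  obtain ⟨ε, hε, hpos, hne', hval⟩ := bfs_core hmk a v t0 h0 rk hinj hrkm hstep hc0 hvpos hgen'
    β M Δ L (by rw [hL]; linarith)
    (fun u g => le_trans (hM1' (u, g)) (by rw [hM]; linarith))
    (fun u g h => le_trans hββ1 (hβ1' (u, g) h))
    (by rw [hM]; linarith)
    (fun h => by rw [hβ, if_neg h]; exact min_le_right _ _)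
    (by
      rw [hΔ]
      have h1 : m * M = m * M / β * β := (div_mul_cancel₀ _ hβ0.ne').symm
      have h2 : m * M / β * β < (m * M / β + 1 + V) * β :=
        mul_lt_mul_of_pos_right (by linarith) hβ0
      linarith)
    (fun i => by
      have h1 := le_trans (le_abs_self _) (hV' i)
      rw [hΔ]; linarith)
    (by
      rw [hL]
      have h1 : (m + Δ) * M = (m + Δ) * M / β * β := (div_mul_cancel₀ _ hβ0.ne').symm
      have h2 : (m + Δ) * M / β * β < ((m + Δ) * M / β + 1) * β :=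
        mul_lt_mul_of_pos_right (by linarith) hβ0
      linarith)
  refine ⟨_, fun i => (hpos i).ne', hne', ?_⟩
  have h5 : (((k : ℤ) - ((k / m : ℕ) : ℤ) : ℤ) : ℝ) ≤
      ((∑ i : ZMod k, sg (L ^ (m - rk (pr m i)) * (Δ + ε * v i)) -
        ∑ u, sg (act a (fun i => L ^ (m - rk (pr m i)) * (Δ + ε * v i)) u) : ℤ) : ℝ) := by
    push_cast at hval ⊢
    exact hval
  exact_mod_cast h5

/-- mixture, real version -/
theorem real_mix {l k : ℕ} [NeZero l] [NeZero k] (hlk : l ∣ k) (a : ZMod k → ℝ)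
    (hsup : ∀ c, a c ≠ 0 → qt l a (pr l c) ≠ 0) (he : ∑ c, sg (a c) ≠ 1) (w : ZMod l → ℝ)
    (hw : ∀ i, w i ≠ 0) (hrow : ∀ u, qt l a u = 0 → act (qt l a) w u ≠ 0)
    (hval : (l : ℤ) ≤ ∑ i, sg (w i) -
      ∑ u ∈ univ.filter (fun u => qt l a u = 0), sg (act (qt l a) w u)) :
    ∃ y : ZMod k → ℝ, (∀ i, y i ≠ 0) ∧ (∀ u, act a y u ≠ 0) ∧
      (k : ℤ) - ((k / l : ℕ) : ℤ) + 1 ≤ ∑ i, sg (y i) - ∑ u, sg (act a y u) := by
  classical
  obtain ⟨s0, hs1, _, hs3⟩ :=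
    generic (F := {f : ZMod k × ZMod l // ∃ i, pr l i = f.2 ∧ a (f.1 - i) ≠ 0})
      (fun f i => if pr l i = f.1.2 then a (f.1.1 - i) else 0) (fun f => by
        obtain ⟨i, hi, hi'⟩ := f.2
        exact ⟨i, by rw [if_pos hi]; exact hi'⟩)
  obtain ⟨v, hv⟩ : ∃ v : ZMod k → ℝ, ∀ i, v i = (s0 : ℝ) ^ i.val := ⟨_, fun _ => rfl⟩
  have hvpos : ∀ i, 0 < v i := by
    intro i
    rw [hv]
    exact pow_pos (by exact_mod_cast hs1) _
  have hgen : ∀ u, qt l a (pr l u) ≠ 0 → G6_b l a v u 0 ≠ 0 := by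
    intro u hu
    have h1 : ∃ i, pr l i = 0 ∧ a (u - i) ≠ 0 := by
      unfold qt at hu
      obtain ⟨d, hd, hd1⟩ := Finset.exists_ne_zero_of_sum_ne_zero hu
      have hd' : pr l d = pr l u := by simpa using hd
      refine ⟨u - d, ?_, ?_⟩
      · rw [pr_sub hlk, hd', sub_self]
      · rwa [sub_sub_cancel]
    have h2 := hs3 ⟨(u, 0), h1⟩
    unfold G6_b
    simp only [hv]
    exact h2
  obtain ⟨β1, hβ1, hβ1'⟩ := exists_low (fun u : ZMod k => G6_b l a v u 0)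
  obtain ⟨β2, hβ2, hβ2'⟩ := exists_low a
  obtain ⟨M1, hM1, hM1'⟩ := exists_up (fun u : ZMod k => G6_b l a v u 0)
  obtain ⟨M2, hM2, hM2'⟩ := exists_up (fun u : ZMod k => Th l a w u)
  obtain ⟨V, hV, hV'⟩ := exists_up v
  obtain ⟨β, hβ⟩ : ∃ β, β = min β1 β2 := ⟨_, rfl⟩
  have hβ0 : 0 < β := by rw [hβ]; exact lt_min hβ1 hβ2
  obtain ⟨M, hM⟩ : ∃ M, M = M1 + M2 := ⟨_, rfl⟩
  have hM0 : 0 ≤ M := by rw [hM]; linarith
  obtain ⟨L, hL⟩ : ∃ L, L = 2 * M / β + 1 + V := ⟨_, rfl⟩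
  have hLnn : 0 ≤ 2 * M / β := div_nonneg (by linarith) hβ0.le
  obtain ⟨σ, τ, _, _, h1, h2, h3⟩ := mix_core hlk a v w hsup hvpos hgen hw hrow hval L β M
    (by rw [hL]; linarith)
    (fun i => by
      have h1 := le_trans (le_abs_self _) (hV' i)
      rw [hL]; linarith)
    (by
      rw [hL]
      have h1 : 2 * M = 2 * M / β * β := (div_mul_cancel₀ _ hβ0.ne').symm
      have h2 : 2 * M / β * β < (2 * M / β + 1 + V) * β :=
        mul_lt_mul_of_pos_right (by linarith) hβ0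
      linarith)
    (fun u hu => le_trans (by rw [hβ]; exact min_le_right _ _) (hβ2' u hu))
    (fun u hu => le_trans (by rw [hβ]; exact min_le_left _ _) (hβ1' u hu))
    (fun u => le_trans (hM1' u) (by rw [hM]; linarith))
    (fun u => le_trans (hM2' u) (by rw [hM]; linarith))
    he
  exact ⟨_, h1, h2, h3⟩

end Pool.Agent.Helper21.FE
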